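import Mathlib

/-!
# MP_417c68_gt, project P: Lie triple systems.  Definitions.

Text: `/team-store/TEXT_417c68_P.md`.
-/

noncomputable section

namespace Pool.Agent.MP417P

open Module

/-- A finite dimensional orthogonal Lie triple system of noncompact type: a scalar product `ip` and
a triple product `T x y z` (think of `[[x, y], z]` for symmetric matrices). -/
structure LTS (E : Type) [AddCommGroup E] [Module ℝ E] where
  /-- the triple product -/
  T : E →ₗ[ℝ] E →ₗ[ℝ] E →ₗ[ℝ] E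
  /-- the scalar product -/
  ip : E →ₗ[ℝ] E →ₗ[ℝ] ℝ
  symm : ∀ x y, ip x y = ip y x
  pos : ∀ x, x ≠ 0 → 0 < ip x x
  skew : ∀ x y z, T x y z = -T y x z
  jac : ∀ x y z, T x y z + T y z x + T z x y = 0
  inv : ∀ x y z w, ip (T x y z) w = -ip z (T x y w)
  der : ∀ a b x y z, T a b (T x y z) = T (T a b x) y z + T x (T a b y) z + T x y (T a b z)
  neg : ∀ (m : ℕ) (x y : Fin m → E), ∑ i, ∑ j, ip (T (x i) (y i) (x j)) (y j) ≤ 0

namespace LTS

section alg

variable {E E' : Type} [AddCommGroup E] [Module ℝ E] [AddCommGroup E'] [Module ℝ E']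

/-- `V` is a subtriple -/
def Sub (S : LTS E) (V : Submodule ℝ E) : Prop :=
  ∀ x ∈ V, ∀ y ∈ V, ∀ z ∈ V, S.T x y z ∈ V

/-- the centre of the subtriple `V` -/
def cen (S : LTS E) (V : Submodule ℝ E) : Submodule ℝ E where
  carrier := {x | x ∈ V ∧ ∀ y ∈ V, S.T x y = 0}
  zero_mem' := ⟨V.zero_mem, fun y _ => by rw [map_zero, LinearMap.zero_apply]⟩
  add_mem' := fun {a b} ha hb => ⟨V.add_mem ha.1 hb.1, fun y hy => by
    rw [map_add, LinearMap.add_apply, ha.2 y hy, hb.2 y hy, add_zero]⟩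
  smul_mem' := fun c {a} ha => ⟨V.smul_mem c ha.1, fun y hy => by
    rw [map_smul, LinearMap.smul_apply, ha.2 y hy, smul_zero]⟩

theorem mem_cen {S : LTS E} {V : Submodule ℝ E} {x : E} :
    x ∈ S.cen V ↔ x ∈ V ∧ ∀ y ∈ V, S.T x y = 0 := Iff.rfl

/-- the centralizer of `V` -/
def cz (S : LTS E) (V : Submodule ℝ E) : Submodule ℝ E where
  carrier := {x | ∀ y ∈ V, S.T x y = 0}
  zero_mem' := fun y _ => by rw [map_zero, LinearMap.zero_apply]
  add_mem' := fun {a b} ha hb y hy => by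
    rw [map_add, LinearMap.add_apply, ha y hy, hb y hy, add_zero]
  smul_mem' := fun c {a} ha y hy => by
    rw [map_smul, LinearMap.smul_apply, ha y hy, smul_zero]

theorem mem_cz {S : LTS E} {V : Submodule ℝ E} {x : E} :
    x ∈ S.cz V ↔ ∀ y ∈ V, S.T x y = 0 := Iff.rfl

/-- the orthogonal complement of `V` -/
def perp (S : LTS E) (V : Submodule ℝ E) : Submodule ℝ E where
  carrier := {x | ∀ y ∈ V, S.ip x y = 0}
  zero_mem' := fun y _ => by rw [map_zero, LinearMap.zero_apply]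
  add_mem' := fun {a b} ha hb y hy => by
    rw [map_add, LinearMap.add_apply, ha y hy, hb y hy, add_zero]
  smul_mem' := fun c {a} ha y hy => by
    rw [map_smul, LinearMap.smul_apply, ha y hy, smul_zero]

theorem mem_perp {S : LTS E} {V : Submodule ℝ E} {x : E} :
    x ∈ S.perp V ↔ ∀ y ∈ V, S.ip x y = 0 := Iff.rfl

/-- the restriction of the structure to a subtriple -/
def res (S : LTS E) (V : Submodule ℝ E) (hV : S.Sub V) : LTS V where
  T := LinearMap.mk₂ ℝ
    (fun x y => (S.T x.1 y.1).restrict (p := V) (q := V) fun z hz => hV x.1 x.2 y.1 y.2 z hz)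
    (fun a b y => by
      ext z
      show S.T (a.1 + b.1) y.1 z.1 = S.T a.1 y.1 z.1 + S.T b.1 y.1 z.1
      rw [map_add, LinearMap.add_apply, LinearMap.add_apply])
    (fun c a y => by
      ext z
      show S.T (c • a.1) y.1 z.1 = c • S.T a.1 y.1 z.1
      rw [map_smul, LinearMap.smul_apply, LinearMap.smul_apply])
    (fun a b y => by
      ext z
      show S.T a.1 (b.1 + y.1) z.1 = S.T a.1 b.1 z.1 + S.T a.1 y.1 z.1
      rw [map_add, LinearMap.add_apply])
    (fun c a y => by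
      ext z
      show S.T a.1 (c • y.1) z.1 = c • S.T a.1 y.1 z.1
      rw [map_smul, LinearMap.smul_apply])
  ip := S.ip.compl₁₂ V.subtype V.subtype
  symm x y := S.symm x.1 y.1
  pos x hx := S.pos x.1 fun h => hx (Subtype.ext h)
  skew x y z := Subtype.ext (S.skew x.1 y.1 z.1)
  jac x y z := Subtype.ext (S.jac x.1 y.1 z.1)
  inv x y z w := S.inv x.1 y.1 z.1 w.1
  der a b x y z := Subtype.ext (S.der a.1 b.1 x.1 y.1 z.1)
  neg m x y := S.neg m (fun i => (x i).1) fun i => (y i).1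

@[simp] theorem res_T (S : LTS E) (V : Submodule ℝ E) (hV : S.Sub V) (x y z : V) :
    (((S.res V hV).T x y z : V) : E) = S.T x.1 y.1 z.1 := rfl

@[simp] theorem res_ip (S : LTS E) (V : Submodule ℝ E) (hV : S.Sub V) (x y : V) :
    (S.res V hV).ip x y = S.ip x.1 y.1 := rfl

/-- the product -/
def prod (S : LTS E) (S' : LTS E') : LTS (E × E') where
  T := LinearMap.mk₂ ℝ (fun x y => (S.T x.1 y.1).prodMap (S'.T x.2 y.2))
    (fun a b y => by
      refine LinearMap.ext fun z => Prod.ext ?_ ?_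
      · show S.T (a.1 + b.1) y.1 z.1 = S.T a.1 y.1 z.1 + S.T b.1 y.1 z.1
        rw [map_add, LinearMap.add_apply, LinearMap.add_apply]
      · show S'.T (a.2 + b.2) y.2 z.2 = S'.T a.2 y.2 z.2 + S'.T b.2 y.2 z.2
        rw [map_add, LinearMap.add_apply, LinearMap.add_apply])
    (fun c a y => by
      refine LinearMap.ext fun z => Prod.ext ?_ ?_
      · show S.T (c • a.1) y.1 z.1 = c • S.T a.1 y.1 z.1
        rw [map_smul, LinearMap.smul_apply, LinearMap.smul_apply]
      · show S'.T (c • a.2) y.2 z.2 = c • S'.T a.2 y.2 z.2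
        rw [map_smul, LinearMap.smul_apply, LinearMap.smul_apply])
    (fun a b y => by
      refine LinearMap.ext fun z => Prod.ext ?_ ?_
      · show S.T a.1 (b.1 + y.1) z.1 = S.T a.1 b.1 z.1 + S.T a.1 y.1 z.1
        rw [map_add, LinearMap.add_apply]
      · show S'.T a.2 (b.2 + y.2) z.2 = S'.T a.2 b.2 z.2 + S'.T a.2 y.2 z.2
        rw [map_add, LinearMap.add_apply])
    (fun c a y => by
      refine LinearMap.ext fun z => Prod.ext ?_ ?_
      · show S.T a.1 (c • y.1) z.1 = c • S.T a.1 y.1 z.1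
        rw [map_smul, LinearMap.smul_apply]
      · show S'.T a.2 (c • y.2) z.2 = c • S'.T a.2 y.2 z.2
        rw [map_smul, LinearMap.smul_apply])
  ip := S.ip.compl₁₂ (LinearMap.fst ℝ E E') (LinearMap.fst ℝ E E') +
    S'.ip.compl₁₂ (LinearMap.snd ℝ E E') (LinearMap.snd ℝ E E')
  symm x y := by
    show S.ip x.1 y.1 + S'.ip x.2 y.2 = S.ip y.1 x.1 + S'.ip y.2 x.2
    rw [S.symm, S'.symm]
  pos x hx := by
    show 0 < S.ip x.1 x.1 + S'.ip x.2 x.2
    by_cases h : x.1 = 0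
    · have h2 : x.2 ≠ 0 := fun h2 => hx (Prod.ext h h2)
      rw [h, map_zero, zero_add]
      exact S'.pos _ h2
    · have h1 := S.pos _ h
      by_cases h2 : x.2 = 0
      · rw [h2, map_zero, add_zero]
        exact h1
      · exact add_pos h1 (S'.pos _ h2)
  skew x y z := Prod.ext (S.skew x.1 y.1 z.1) (S'.skew x.2 y.2 z.2)
  jac x y z := Prod.ext (S.jac x.1 y.1 z.1) (S'.jac x.2 y.2 z.2)
  inv x y z w := by
    show S.ip (S.T x.1 y.1 z.1) w.1 + S'.ip (S'.T x.2 y.2 z.2) w.2 =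
      -(S.ip z.1 (S.T x.1 y.1 w.1) + S'.ip z.2 (S'.T x.2 y.2 w.2))
    rw [S.inv, S'.inv, neg_add]
  der a b x y z := Prod.ext (S.der a.1 b.1 x.1 y.1 z.1) (S'.der a.2 b.2 x.2 y.2 z.2)
  neg m x y := by
    have h1 := S.neg m (fun i => (x i).1) fun i => (y i).1
    have h2 := S'.neg m (fun i => (x i).2) fun i => (y i).2
    show ∑ i, ∑ j, (S.ip (S.T (x i).1 (y i).1 (x j).1) (y j).1 +
      S'.ip (S'.T (x i).2 (y i).2 (x j).2) (y j).2) ≤ 0
    simp only [Finset.sum_add_distrib]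
    linarith

@[simp] theorem prod_T (S : LTS E) (S' : LTS E') (x y z : E × E') :
    (S.prod S').T x y z = (S.T x.1 y.1 z.1, S'.T x.2 y.2 z.2) := rfl

@[simp] theorem prod_ip (S : LTS E) (S' : LTS E') (x y : E × E') :
    (S.prod S').ip x y = S.ip x.1 y.1 + S'.ip x.2 y.2 := rfl

/-- homomorphisms -/
def Hom (S' : LTS E') (S : LTS E) (f : E' →ₗ[ℝ] E) : Prop :=
  ∀ x y z, f (S'.T x y z) = S.T (f x) (f y) (f z)

/-- a decomposition of `E` into two commuting ideals, given by the two projections -/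
structure Dec (S : LTS E) (π₁ π₂ : E →ₗ[ℝ] E) : Prop where
  add : ∀ x, π₁ x + π₂ x = x
  id₁ : ∀ x, π₁ (π₁ x) = π₁ x
  id₂ : ∀ x, π₂ (π₂ x) = π₂ x
  com : ∀ x y, S.T (π₁ x) (π₂ y) = 0
  hom₁ : Hom S S π₁
  hom₂ : Hom S S π₂

/-- the part `(W ∩ E₁) + (W ∩ E₂)` of `W` -/
def W0 (π₁ π₂ : E →ₗ[ℝ] E) (W : Submodule ℝ E) : Submodule ℝ E :=
  (W ⊓ LinearMap.range π₁) ⊔ (W ⊓ LinearMap.range π₂)

/-- the link part of `W`: the orthogonal complement of `(W ∩ E₁) + (W ∩ E₂)` in `W` -/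
def lk (S : LTS E) (π₁ π₂ : E →ₗ[ℝ] E) (W : Submodule ℝ E) : Submodule ℝ E :=
  W ⊓ S.perp (W0 π₁ π₂ W)

/-- the map `(x, x') ↦ π₁ x + π₂ x'` -/
def ff (π₁ π₂ : E →ₗ[ℝ] E) (U : Submodule ℝ E) : (U × U) →ₗ[ℝ] E :=
  (π₁.comp U.subtype).comp (LinearMap.fst ℝ U U) + (π₂.comp U.subtype).comp (LinearMap.snd ℝ U U)

@[simp] theorem ff_apply (π₁ π₂ : E →ₗ[ℝ] E) (U : Submodule ℝ E) (x : U × U) :
    ff π₁ π₂ U x = π₁ x.1.1 + π₂ x.2.1 := rfl

end alg

section top

variable {E : Type} [NormedAddCommGroup E] [NormedSpace ℝ E]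

/-- the group `GL(E)` -/
abbrev GLE (E : Type) [NormedAddCommGroup E] [NormedSpace ℝ E] : Type := (E →L[ℝ] E)ˣ

/-- the image of a subspace under an element of `GL(E)` -/
def im (k : GLE E) (V : Submodule ℝ E) : Submodule ℝ E := V.map (k.1 : E →ₗ[ℝ] E)

theorem mem_im {k : GLE E} {V : Submodule ℝ E} {x : E} : x ∈ im k V ↔ ∃ y ∈ V, k.1 y = x := by
  rw [im, Submodule.mem_map]
  exact Iff.rfl

/-- the set `N(k)` of section 4 -/
def NN (π₁ π₂ : E →ₗ[ℝ] E) (V W U : Submodule ℝ E) (k : GLE E) : Submodule ℝ (U × U) :=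
  (im k V ⊔ W0 π₁ π₂ W).comap (ff π₁ π₂ U)

/-- `k` is an isometric automorphism -/
def Aut (S : LTS E) (k : GLE E) : Prop :=
  (∀ x y z, k.1 (S.T x y z) = S.T (k.1 x) (k.1 y) (k.1 z)) ∧ ∀ x y, S.ip (k.1 x) (k.1 y) = S.ip x y

variable [FiniteDimensional ℝ E]

/-- the operator `T x y` as a continuous linear map -/
def D (S : LTS E) (x y : E) : E →L[ℝ] E := LinearMap.toContinuousLinearMap (S.T x y)

@[simp] theorem D_apply (S : LTS E) (x y z : E) : S.D x y z = S.T x y z := rfl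

/-- the exponential as an element of `GL(E)` -/
def ex (X : E →L[ℝ] E) : GLE E where
  val := NormedSpace.exp X
  inv := NormedSpace.exp (-X)
  val_inv := by
    let +nondep : NormedAlgebra ℚ (E →L[ℝ] E) := .restrictScalars ℚ ℝ (E →L[ℝ] E)
    rw [← NormedSpace.exp_add_of_commute (Commute.refl X).neg_right, add_neg_cancel,
      NormedSpace.exp_zero]
  inv_val := by
    let +nondep : NormedAlgebra ℚ (E →L[ℝ] E) := .restrictScalars ℚ ℝ (E →L[ℝ] E)
    rw [← NormedSpace.exp_add_of_commute (Commute.refl X).neg_left, neg_add_cancel,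
      NormedSpace.exp_zero]

/-- the group of inner automorphisms: the closure of the group generated by all `exp (T x y)` -/
def Inn (S : LTS E) : Subgroup (GLE E) :=
  (Subgroup.closure {u | ∃ x y, u = ex (S.D x y)}).topologicalClosure

/-- a compact connected group of isometric automorphisms which contains the inner ones -/
structure Grp (S : LTS E) (K : Subgroup (GLE E)) : Prop where
  cpt : IsCompact (K : Set (GLE E))
  conn : IsPreconnected (K : Set (GLE E))
  inn : S.Inn ≤ K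
  aut : ∀ k ∈ K, S.Aut k

/-- `V` and `W` are complementary: `E = V ⊕ k W` for all `k ∈ K` -/
structure Cp (K : Subgroup (GLE E)) (V W : Submodule ℝ E) : Prop where
  disj : ∀ k ∈ K, ∀ x ∈ V, ∀ y ∈ W, x = k.1 y → x = 0
  dim : finrank ℝ V + finrank ℝ W = finrank ℝ E

/-- the relation of section 5 -/
def Arr (S : LTS E) (Q : Submodule ℝ (E × E)) (x x' : E) : Prop :=
  ∃ u ∈ (S.prod S).Inn, u.1 (x, x') ∈ Q

/-- `P` is the orthogonal projection onto a subtriple -/
structure IsPr (S : LTS E) (P : E →L[ℝ] E) : Prop where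
  idem : ∀ x, P (P x) = P x
  symm : ∀ x y, S.ip (P x) y = S.ip x (P y)
  trip : ∀ x y z, P (S.T (P x) (P y) (P z)) = S.T (P x) (P y) (P z)

end top

end LTS

end Pool.Agent.MP417P
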